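import Pool.Agent.V117.VNum

/-! The v-number of powers of an ideal need not be strictly increasing. -/

namespace Pool.Agent.Results.MP_0bcfe8_al.VNumberDrop

open MvPolynomial Pool.Agent.V117

/-- The v-number of an ideal `J` of the standard graded polynomial ring: the least degree of a
homogeneous `f` such that the colon ideal `(J : f)` is an associated prime of `J`. -/
noncomputable def vNumber {K : Type*} [Field K] {n : ℕ} (J : Ideal (MvPolynomial (Fin n) K)) : ℕ :=
  sInf {d : ℕ | ∃ f : MvPolynomial (Fin n) K,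
    f.IsHomogeneous d ∧ J.colon {f} ∈ Submodule.associatedPrimes J}

/-- Exponents of the monomials in `(xy, xz, yz) + (x, y, z)^N`. -/
def expSet (N : ℕ) : Set (Fin 3 →₀ ℕ) :=
  {m | (1 ≤ m 0 ∧ 1 ≤ m 1) ∨ (1 ≤ m 0 ∧ 1 ≤ m 2) ∨ (1 ≤ m 1 ∧ 1 ≤ m 2) ∨ N ≤ m 0 + m 1 + m 2}

theorem degree_three (m : Fin 3 →₀ ℕ) : m.degree = m 0 + m 1 + m 2 := by
  rw [Finsupp.degree_eq_sum, Fin.sum_univ_three]

theorem isUpperSet_expSet (N : ℕ) : IsUpperSet (expSet N) := by
  intro a b hab ha
  have h0 := hab 0
  have h1 := hab 1
  have h2 := hab 2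
  simp only [expSet, Set.mem_ofPred_eq] at ha ⊢
  omega

theorem result (K : Type*) [Field K] (N : ℕ) (hN : 4 ≤ N) :
    ∃ I : Ideal (MvPolynomial (Fin 3) K), I ≠ ⊥ ∧ I ≠ ⊤ ∧
      (∀ f ∈ I, ∀ d : ℕ, homogeneousComponent d f ∈ I) ∧
      vNumber (I ^ 1) = N - 1 ∧ vNumber (I ^ 2) = 3 := by
  classical
  have hU := isUpperSet_expSet N
  refine ⟨upIdeal K (expSet N), ?_, ?_, fun f hf d => upIdeal_homogeneousComponent_mem hU hf d,
    ?_, ?_⟩
  · intro h
    have : monomial (Finsupp.single 0 N) (1 : K) ∈ upIdeal K (expSet N) := by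
      rw [monomial_mem_upIdeal hU one_ne_zero]
      simp [expSet]
    rw [h, Ideal.mem_bot, monomial_eq_zero] at this
    exact one_ne_zero this
  · intro h
    have : monomial (0 : Fin 3 →₀ ℕ) (1 : K) ∈ upIdeal K (expSet N) := by
      rw [h]; trivial
    rw [monomial_mem_upIdeal hU one_ne_zero] at this
    simp [expSet] at this
    omega
  · rw [pow_one]
    have hmem : (N - 1) ∈ {d : ℕ | ∃ f : MvPolynomial (Fin 3) K,
        f.IsHomogeneous d ∧ (upIdeal K (expSet N)).colon {f} ∈
          Submodule.associatedPrimes (upIdeal K (expSet N))} := by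
      refine ⟨monomial (Finsupp.single 0 (N - 1)) 1, isHomogeneous_monomial _ (by rw [degree_three]; simp), ?_⟩
      rw [colon_mem_ass, colon_eq_max hU]
      · exact ker_constantCoeff_isPrime
      · simp [expSet]
        omega
      · intro i
        fin_cases i <;> simp [expSet] <;> omega
    apply le_antisymm (Nat.sInf_le hmem)
    apply le_csInf ⟨_, hmem⟩
    rintro d ⟨f, hf, hass⟩
    rw [colon_mem_ass] at hass
    refine degree_lower hU N ?_ (N - 1) ?_ hf hass
    · intro i
      fin_cases i <;> simp [expSet]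
    · intro m hm hmd
      rw [degree_three] at hmd
      simp only [expSet, Set.mem_ofPred_eq] at hm
      by_cases h0 : m 0 ≠ 0
      · refine ⟨0, ?_⟩
        simp [expSet]
        omega
      · by_cases h1 : m 1 ≠ 0
        · refine ⟨1, ?_⟩
          simp [expSet]
          omega
        · refine ⟨2, ?_⟩
          simp [expSet]
          omega
  · rw [pow_two, upIdeal_mul_eq]
    set P2 : Set (Fin 3 →₀ ℕ) := {m | ∃ p ∈ expSet N, ∃ q ∈ expSet N, p + q ≤ m} with hP2
    have hU2 : IsUpperSet P2 := isUpperSet_sumset _ _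
    have hdeg4 : ∀ m ∈ P2, 4 ≤ m.degree := by
      rintro m ⟨p, hp, q, hq, hpq⟩
      rw [degree_three]
      have h0 := hpq 0
      have h1 := hpq 1
      have h2 := hpq 2
      simp only [Finsupp.add_apply] at h0 h1 h2
      simp only [expSet, Set.mem_ofPred_eq] at hp hq
      omega
    have hmem : 3 ∈ {d : ℕ | ∃ f : MvPolynomial (Fin 3) K,
        f.IsHomogeneous d ∧ (upIdeal K P2).colon {f} ∈
          Submodule.associatedPrimes (upIdeal K P2)} := by
      refine ⟨monomial (Finsupp.equivFunOnFinite.symm ![1, 1, 1]) 1,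
        isHomogeneous_monomial _ (by rw [degree_three]; simp), ?_⟩
      rw [colon_mem_ass, colon_eq_max hU2]
      · exact ker_constantCoeff_isPrime
      · intro h
        have := hdeg4 _ h
        rw [degree_three] at this
        simp at this
      · intro i
        fin_cases i
        · refine ⟨Finsupp.equivFunOnFinite.symm ![1, 1, 0], ?_,
            Finsupp.equivFunOnFinite.symm ![1, 0, 1], ?_, ?_⟩
          · simp [expSet]
          · simp [expSet]
          · intro j
            fin_cases j <;> simp
        · refine ⟨Finsupp.equivFunOnFinite.symm ![1, 1, 0], ?_,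
            Finsupp.equivFunOnFinite.symm ![0, 1, 1], ?_, ?_⟩
          · simp [expSet]
          · simp [expSet]
          · intro j
            fin_cases j <;> simp
        · refine ⟨Finsupp.equivFunOnFinite.symm ![1, 0, 1], ?_,
            Finsupp.equivFunOnFinite.symm ![0, 1, 1], ?_, ?_⟩
          · simp [expSet]
          · simp [expSet]
          · intro j
            fin_cases j <;> simp
    apply le_antisymm (Nat.sInf_le hmem)
    apply le_csInf ⟨_, hmem⟩
    rintro d ⟨f, hf, hass⟩
    rw [colon_mem_ass] at hass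
    refine degree_lower hU2 (N + N) ?_ 3 ?_ hf hass
    · intro i
      refine ⟨Finsupp.single i N, ?_, Finsupp.single i N, ?_, ?_⟩
      · fin_cases i <;> simp [expSet]
      · fin_cases i <;> simp [expSet]
      · rw [← Finsupp.single_add]
    · intro m hm hmd
      refine ⟨0, fun h => ?_⟩
      have := hdeg4 _ h
      rw [map_add] at this
      simp at this
      omega

end Pool.Agent.Results.MP_0bcfe8_al.VNumberDrop
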